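import Mathlib

/-!
# Type semigroups of group actions with restricted pieces

`InvSubalg G X` is the type of the `G`-invariant subalgebras of the Boolean algebra of all subsets
of `X`, and `TypeSemigroup 𝒜` is the semigroup of types of the sets in `𝒜*`, modulo
equidecomposability with pieces in `𝒜`.
-/

set_option autoImplicit false

namespace Pool.Agent.Y86.TypeSg

universe u v

/-- A `G`-invariant subalgebra of the algebra of all subsets of `X`. -/
structure InvSubalg (G : Type u) (X : Type v) [Group G] [MulAction G X] where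
  /-- the family of sets -/
  sets : Set (Set X)
  empty_mem : ∅ ∈ sets
  univ_mem : Set.univ ∈ sets
  union_mem : ∀ A ∈ sets, ∀ B ∈ sets, A ∪ B ∈ sets
  inter_mem : ∀ A ∈ sets, ∀ B ∈ sets, A ∩ B ∈ sets
  compl_mem : ∀ A ∈ sets, Aᶜ ∈ sets
  image_mem : ∀ g : G, ∀ A ∈ sets, (fun x => g • x) '' A ∈ sets

variable {G : Type u} {X : Type v} [Group G] [MulAction G X]

/-- `𝒜*`: the family of the sets `⋃_{m < n} A_m × {m}` with `n ∈ ℕ` and every `A_m ∈ 𝒜`. -/
def InvSubalg.star (𝒜 : InvSubalg G X) : Set (Set (X × ℕ)) :=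
  {A | ∃ (n : ℕ) (F : ℕ → Set X), (∀ m, F m ∈ 𝒜.sets) ∧ A = {p | p.2 < n ∧ p.1 ∈ F p.2}}

/-- The action of `G* = G × Perm ℕ` on `X* = X × ℕ`. -/
def act (h : G × Equiv.Perm ℕ) (p : X × ℕ) : X × ℕ := (h.1 • p.1, h.2 p.2)

/-- Equidecomposability in `𝒜`: `A` has a partition into finitely many sets `P i ∈ 𝒜*` whose
images `h i (P i)`, for some `h i ∈ G*`, are a partition of `B`. -/
def Equidec (𝒜 : InvSubalg G X) (A B : Set (X × ℕ)) : Prop :=
  ∃ (k : ℕ) (P : Fin k → Set (X × ℕ)) (h : Fin k → G × Equiv.Perm ℕ),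
    (∀ i, P i ∈ 𝒜.star) ∧
    Pairwise (fun i j => Disjoint (P i) (P j)) ∧ ⋃ i, P i = A ∧
    Pairwise (fun i j => Disjoint (act (h i) '' P i) (act (h j) '' P j)) ∧
    ⋃ i, act (h i) '' P i = B

/-! ### Closure properties of `𝒜*` -/

theorem mem_star_iff (𝒜 : InvSubalg G X) (A : Set (X × ℕ)) :
    A ∈ 𝒜.star ↔ (∀ m, {x | (x, m) ∈ A} ∈ 𝒜.sets) ∧ ∃ n, ∀ p ∈ A, p.2 < n := by
  constructor
  · rintro ⟨n, F, hF, rfl⟩
    refine ⟨fun m => ?_, n, fun p hp => hp.1⟩
    by_cases hm : m < n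
    · have : {x | (x, m) ∈ {p : X × ℕ | p.2 < n ∧ p.1 ∈ F p.2}} = F m := by
        ext x
        simp [hm]
      rw [this]
      exact hF m
    · have : {x | (x, m) ∈ {p : X × ℕ | p.2 < n ∧ p.1 ∈ F p.2}} = ∅ := by
        ext x
        simp [hm]
      rw [this]
      exact 𝒜.empty_mem
  · rintro ⟨h1, n, h2⟩
    refine ⟨n, fun m => {x | (x, m) ∈ A}, h1, ?_⟩
    ext ⟨x, m⟩
    constructor
    · intro h
      exact ⟨h2 _ h, h⟩
    · rintro ⟨-, h⟩
      exact h

theorem star_union {𝒜 : InvSubalg G X} {A B : Set (X × ℕ)} (hA : A ∈ 𝒜.star) (hB : B ∈ 𝒜.star) :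
    A ∪ B ∈ 𝒜.star := by
  rw [mem_star_iff] at *
  obtain ⟨a1, n, a2⟩ := hA
  obtain ⟨b1, m, b2⟩ := hB
  refine ⟨fun k => 𝒜.union_mem _ (a1 k) _ (b1 k), max n m, ?_⟩
  rintro p (hp | hp)
  · exact lt_of_lt_of_le (a2 p hp) (le_max_left _ _)
  · exact lt_of_lt_of_le (b2 p hp) (le_max_right _ _)

theorem star_inter {𝒜 : InvSubalg G X} {A B : Set (X × ℕ)} (hA : A ∈ 𝒜.star) (hB : B ∈ 𝒜.star) :
    A ∩ B ∈ 𝒜.star := by
  rw [mem_star_iff] at *
  obtain ⟨a1, n, a2⟩ := hA
  obtain ⟨b1, m, b2⟩ := hB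
  exact ⟨fun k => 𝒜.inter_mem _ (a1 k) _ (b1 k), n, fun p hp => a2 p hp.1⟩

theorem star_empty (𝒜 : InvSubalg G X) : ∅ ∈ 𝒜.star := by
  rw [mem_star_iff]
  exact ⟨fun m => by simpa using 𝒜.empty_mem, 0, fun p hp => hp.elim⟩

/-- The inverse of an element of `G*`. -/
theorem act_inv_act (h : G × Equiv.Perm ℕ) (p : X × ℕ) : act h⁻¹ (act h p) = p := by
  simp [act]

theorem act_act_inv (h : G × Equiv.Perm ℕ) (p : X × ℕ) : act h (act h⁻¹ p) = p := by
  simp [act]

theorem act_mul (h k : G × Equiv.Perm ℕ) (p : X × ℕ) : act (h * k) p = act h (act k p) := by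
  simp [act, mul_smul]

theorem act_one (p : X × ℕ) : act (1 : G × Equiv.Perm ℕ) p = p := by
  simp [act]

theorem act_injective (h : G × Equiv.Perm ℕ) : Function.Injective (act h : X × ℕ → X × ℕ) := by
  intro p q hpq
  rw [← act_inv_act h p, hpq, act_inv_act]

theorem mem_act_image (h : G × Equiv.Perm ℕ) (A : Set (X × ℕ)) (p : X × ℕ) :
    p ∈ act h '' A ↔ act h⁻¹ p ∈ A := by
  constructor
  · rintro ⟨q, hq, rfl⟩
    rwa [act_inv_act]
  · intro hp
    exact ⟨_, hp, act_act_inv h p⟩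

theorem star_act {𝒜 : InvSubalg G X} {A : Set (X × ℕ)} (hA : A ∈ 𝒜.star)
    (h : G × Equiv.Perm ℕ) : act h '' A ∈ 𝒜.star := by
  rw [mem_star_iff] at *
  obtain ⟨a1, n, a2⟩ := hA
  constructor
  · intro m
    have : {x | (x, m) ∈ act h '' A} = (fun x => h.1 • x) '' {x | (x, h.2⁻¹ m) ∈ A} := by
      ext x
      rw [Set.mem_ofPred_eq, mem_act_image]
      constructor
      · intro hx
        exact ⟨h.1⁻¹ • x, hx, by simp⟩
      · rintro ⟨y, hy, rfl⟩
        simpa [act] using hy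
    rw [this]
    exact 𝒜.image_mem _ _ (a1 _)
  · refine ⟨(Finset.range n).sup (fun m => h.2 m) + 1, ?_⟩
    rintro _ ⟨q, hq, rfl⟩
    exact Nat.lt_succ_of_le (Finset.le_sup (f := fun m => h.2 m) (Finset.mem_range.2 (a2 q hq)))

theorem star_iUnion {𝒜 : InvSubalg G X} {ι : Type*} [Finite ι] {P : ι → Set (X × ℕ)}
    (h : ∀ i, P i ∈ 𝒜.star) : ⋃ i, P i ∈ 𝒜.star := by
  classical
  have := Fintype.ofFinite ι
  have key : ∀ s : Finset ι, ⋃ i ∈ s, P i ∈ 𝒜.star := by
    intro s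
    induction s using Finset.induction_on with
    | empty => simpa using star_empty 𝒜
    | insert a s _ ih =>
      rw [Finset.set_biUnion_insert]
      exact star_union (h a) ih
  simpa using key Finset.univ

/-! ### Equidecomposability is an equivalence relation -/

theorem Equidec.of_fintype {𝒜 : InvSubalg G X} {A B : Set (X × ℕ)} {ι : Type*} [Finite ι]
    (P : ι → Set (X × ℕ)) (h : ι → G × Equiv.Perm ℕ) (h1 : ∀ i, P i ∈ 𝒜.star)
    (h2 : Pairwise (fun i j => Disjoint (P i) (P j))) (h3 : ⋃ i, P i = A)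
    (h4 : Pairwise (fun i j => Disjoint (act (h i) '' P i) (act (h j) '' P j)))
    (h5 : ⋃ i, act (h i) '' P i = B) : Equidec 𝒜 A B := by
  obtain ⟨k, ⟨e⟩⟩ := Finite.exists_equiv_fin ι
  refine ⟨k, P ∘ e.symm, h ∘ e.symm, fun i => h1 _, ?_, ?_, ?_, ?_⟩
  · intro i j hij
    exact h2 (fun hh => hij (e.symm.injective hh))
  · rw [← h3]
    exact e.symm.surjective.iUnion_comp P
  · intro i j hij
    exact h4 (fun hh => hij (e.symm.injective hh))
  · rw [← h5]
    exact e.symm.surjective.iUnion_comp (fun i => act (h i) '' P i)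

theorem Equidec.refl {𝒜 : InvSubalg G X} {A : Set (X × ℕ)} (hA : A ∈ 𝒜.star) :
    Equidec 𝒜 A A := by
  have e : act (1 : G × Equiv.Perm ℕ) '' A = A := by
    ext p
    rw [mem_act_image]
    simp [act]
  refine Equidec.of_fintype (ι := Unit) (fun _ => A) (fun _ => 1) (fun _ => hA) ?_ ?_ ?_ ?_
  · intro i j hij
    exact (hij rfl).elim
  · exact Set.iUnion_const _
  · intro i j hij
    exact (hij rfl).elim
  · rw [Set.iUnion_const, e]

theorem Equidec.symm {𝒜 : InvSubalg G X} {A B : Set (X × ℕ)} (h : Equidec 𝒜 A B) :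
    Equidec 𝒜 B A := by
  obtain ⟨k, P, h, h1, h2, h3, h4, h5⟩ := h
  have e : ∀ i, act (h i)⁻¹ '' (act (h i) '' P i) = P i := by
    intro i
    ext p
    rw [mem_act_image, mem_act_image, inv_inv, act_inv_act]
  refine ⟨k, fun i => act (h i) '' P i, fun i => (h i)⁻¹, fun i => star_act (h1 i) _, h4, h5,
    ?_, ?_⟩
  · intro i j hij
    simp only [e]
    exact h2 hij
  · simp only [e]
    exact h3

theorem Equidec.trans {𝒜 : InvSubalg G X} {A B C : Set (X × ℕ)} (h : Equidec 𝒜 A B)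
    (h' : Equidec 𝒜 B C) : Equidec 𝒜 A C := by
  obtain ⟨k, P, h, h1, h2, h3, h4, h5⟩ := h
  obtain ⟨l, Q, g, g1, g2, g3, g4, g5⟩ := h'
  refine Equidec.of_fintype (ι := Fin k × Fin l) (fun i => P i.1 ∩ act (h i.1)⁻¹ '' Q i.2)
    (fun i => g i.2 * h i.1) (fun i => star_inter (h1 _) (star_act (g1 _) _)) ?_ ?_ ?_ ?_
  · rintro ⟨i, j⟩ ⟨i', j'⟩ hij
    rw [Set.disjoint_left]
    rintro p ⟨p1, p2⟩ ⟨p3, p4⟩
    rw [mem_act_image, inv_inv] at p2 p4
    by_cases hi : i = i'
    · subst hi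
      have hj : j ≠ j' := fun hj => hij (by rw [hj])
      exact Set.disjoint_left.1 (g2 hj) p2 p4
    · exact Set.disjoint_left.1 (h2 hi) p1 p3
  · ext p
    simp only [Set.mem_iUnion, Set.mem_inter_iff, mem_act_image, inv_inv, Prod.exists]
    constructor
    · rintro ⟨i, j, p1, p2⟩
      rw [← h3]
      exact Set.mem_iUnion.2 ⟨i, p1⟩
    · intro hp
      rw [← h3] at hp
      obtain ⟨i, hi⟩ := Set.mem_iUnion.1 hp
      have : act (h i) p ∈ B := by
        rw [← h5]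
        exact Set.mem_iUnion.2 ⟨i, p, hi, rfl⟩
      rw [← g3] at this
      obtain ⟨j, hj⟩ := Set.mem_iUnion.1 this
      exact ⟨i, j, hi, hj⟩
  · rintro ⟨i, j⟩ ⟨i', j'⟩ hij
    rw [Set.disjoint_left]
    rintro _ ⟨p, ⟨p1, p2⟩, rfl⟩ ⟨q, ⟨q1, q2⟩, hq⟩
    simp only [act_mul] at hq
    rw [mem_act_image, inv_inv] at p2 q2
    simp only at p1 p2 q1 q2 hq
    by_cases hj : j = j'
    · subst hj
      have hi : i ≠ i' := fun hi => hij (by rw [hi])
      have := act_injective _ hq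
      exact Set.disjoint_left.1 (h4 hi) ⟨p, p1, rfl⟩ ⟨q, q1, this⟩
    · exact Set.disjoint_left.1 (g4 hj) ⟨_, p2, rfl⟩ ⟨_, q2, hq⟩
  · ext p
    simp only [Set.mem_iUnion, Prod.exists]
    constructor
    · rintro ⟨i, j, q, ⟨q1, q2⟩, rfl⟩
      rw [mem_act_image, inv_inv] at q2
      rw [← g5]
      exact Set.mem_iUnion.2 ⟨j, _, q2, (act_mul _ _ _).symm⟩
    · intro hp
      rw [← g5] at hp
      obtain ⟨j, q, hq, rfl⟩ := Set.mem_iUnion.1 hp
      have : q ∈ B := by
        rw [← g3]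
        exact Set.mem_iUnion.2 ⟨j, hq⟩
      rw [← h5] at this
      obtain ⟨i, r, hr, rfl⟩ := Set.mem_iUnion.1 this
      refine ⟨i, j, r, ⟨hr, ?_⟩, act_mul _ _ _⟩
      rw [mem_act_image, inv_inv]
      exact hq

/-- Disjoint unions respect equidecomposability. -/
theorem Equidec.union {𝒜 : InvSubalg G X} {A B A' B' : Set (X × ℕ)} (h : Equidec 𝒜 A A')
    (h' : Equidec 𝒜 B B') (hd : Disjoint A B) (hd' : Disjoint A' B') :
    Equidec 𝒜 (A ∪ B) (A' ∪ B') := by
  obtain ⟨k, P, h, h1, h2, h3, h4, h5⟩ := h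
  obtain ⟨l, Q, g, g1, g2, g3, g4, g5⟩ := h'
  have hP : ∀ i, P i ⊆ A := fun i => h3 ▸ Set.subset_iUnion P i
  have hQ : ∀ i, Q i ⊆ B := fun i => g3 ▸ Set.subset_iUnion Q i
  have hP' : ∀ i, act (h i) '' P i ⊆ A' :=
    fun i => h5 ▸ Set.subset_iUnion (fun i => act (h i) '' P i) i
  have hQ' : ∀ i, act (g i) '' Q i ⊆ B' :=
    fun i => g5 ▸ Set.subset_iUnion (fun i => act (g i) '' Q i) i
  refine Equidec.of_fintype (ι := Fin k ⊕ Fin l) (Sum.elim P Q) (Sum.elim h g) ?_ ?_ ?_ ?_ ?_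
  · rintro (i | i)
    · exact h1 i
    · exact g1 i
  · rintro (i | i) (j | j) hij
    · exact h2 (fun e => hij (by rw [e]))
    · exact hd.mono (hP i) (hQ j)
    · exact (hd.mono (hP j) (hQ i)).symm
    · exact g2 (fun e => hij (by rw [e]))
  · rw [Set.iUnion_sum]
    simp only [Sum.elim_inl, Sum.elim_inr]
    rw [h3, g3]
  · rintro (i | i) (j | j) hij
    · exact h4 (fun e => hij (by rw [e]))
    · exact hd'.mono (hP' i) (hQ' j)
    · exact (hd'.mono (hP' j) (hQ' i)).symm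
    · exact g4 (fun e => hij (by rw [e]))
  · rw [Set.iUnion_sum]
    simp only [Sum.elim_inl, Sum.elim_inr]
    rw [h5, g5]

/-! ### Shifts and the sum of two sets -/

/-- The set `B` shifted upward by `k` levels. -/
def shift (k : ℕ) (B : Set (X × ℕ)) : Set (X × ℕ) := (fun p => (p.1, p.2 + k)) '' B

/-- The least `n` such that all levels of `A` are below `n`. -/
noncomputable def height (A : Set (X × ℕ)) : ℕ := sInf {n | ∀ p ∈ A, p.2 < n}

/-- The disjoint union of `A` and of a copy of `B` shifted above all the levels of `A`. -/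
noncomputable def add (A B : Set (X × ℕ)) : Set (X × ℕ) := A ∪ shift (height A) B

theorem lt_height {𝒜 : InvSubalg G X} {A : Set (X × ℕ)} (hA : A ∈ 𝒜.star) :
    ∀ p ∈ A, p.2 < height A := by
  rw [mem_star_iff] at hA
  obtain ⟨-, n, hn⟩ := hA
  exact Nat.sInf_mem (s := {n | ∀ p ∈ A, p.2 < n}) ⟨n, hn⟩

theorem mem_shift {k : ℕ} {B : Set (X × ℕ)} {p : X × ℕ} :
    p ∈ shift k B ↔ k ≤ p.2 ∧ (p.1, p.2 - k) ∈ B := by
  constructor
  · rintro ⟨q, hq, rfl⟩
    simp only [Nat.add_sub_cancel]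
    exact ⟨Nat.le_add_left _ _, hq⟩
  · rintro ⟨h1, h2⟩
    refine ⟨_, h2, ?_⟩
    ext
    · rfl
    · simp [Nat.sub_add_cancel h1]

/-- A permutation of `ℕ` that adds `k` to every number below `n`. -/
def rot (n k : ℕ) : Equiv.Perm ℕ where
  toFun m := if m < n then m + k else if m < n + k then m - n else m
  invFun m := if m < k then m + n else if m < n + k then m - k else m
  left_inv m := by
    dsimp only
    split_ifs <;> omega
  right_inv m := by
    dsimp only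
    split_ifs <;> omega

theorem shift_eq_act {k n : ℕ} {B : Set (X × ℕ)} (h : ∀ p ∈ B, p.2 < n) :
    act ((1 : G), rot n k) '' B = shift k B := by
  unfold shift
  apply Set.image_congr
  intro p hp
  simp [act, rot, h p hp]

theorem star_shift {𝒜 : InvSubalg G X} {B : Set (X × ℕ)} (hB : B ∈ 𝒜.star) (k : ℕ) :
    shift k B ∈ 𝒜.star := by
  rw [← shift_eq_act (G := G) (lt_height hB)]
  exact star_act hB _

theorem Equidec.act {𝒜 : InvSubalg G X} {B : Set (X × ℕ)} (hB : B ∈ 𝒜.star)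
    (h : G × Equiv.Perm ℕ) : Equidec 𝒜 B (act h '' B) := by
  refine Equidec.of_fintype (ι := Unit) (fun _ => B) (fun _ => h) (fun _ => hB) ?_ ?_ ?_ ?_
  · intro i j hij
    exact (hij rfl).elim
  · exact Set.iUnion_const _
  · intro i j hij
    exact (hij rfl).elim
  · exact Set.iUnion_const _

theorem Equidec.shift {𝒜 : InvSubalg G X} {B : Set (X × ℕ)} (hB : B ∈ 𝒜.star) (k : ℕ) :
    Equidec 𝒜 B (shift k B) := by
  rw [← shift_eq_act (G := G) (lt_height hB)]
  exact Equidec.act hB _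

theorem disjoint_shift {𝒜 : InvSubalg G X} {A : Set (X × ℕ)} (hA : A ∈ 𝒜.star)
    (B : Set (X × ℕ)) : Disjoint A (shift (height A) B) := by
  rw [Set.disjoint_left]
  rintro p hp hq
  have := lt_height hA p hp
  rw [mem_shift] at hq
  omega

theorem star_add {𝒜 : InvSubalg G X} {A B : Set (X × ℕ)} (hA : A ∈ 𝒜.star) (hB : B ∈ 𝒜.star) :
    add A B ∈ 𝒜.star := star_union hA (star_shift hB _)

/-- The sum of `A` and `B` is equidecomposable with the union of disjoint copies. -/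
theorem add_equidec {𝒜 : InvSubalg G X} {A B A' B' : Set (X × ℕ)} (hA : A ∈ 𝒜.star)
    (hB : B ∈ 𝒜.star) (h1 : Equidec 𝒜 A A') (h2 : Equidec 𝒜 B B') (hd : Disjoint A' B') :
    Equidec 𝒜 (add A B) (A' ∪ B') :=
  h1.union ((Equidec.shift hB _).symm.trans h2) (disjoint_shift hA B) hd

/-! ### The type semigroup -/

variable (𝒜 : InvSubalg G X)

/-- Equidecomposability on `𝒜*`. -/
instance starSetoid : Setoid 𝒜.star where
  r A B := Equidec 𝒜 A.1 B.1
  iseqv := ⟨fun A => Equidec.refl A.2, fun h => h.symm, fun h h' => h.trans h'⟩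

/-- The set of the types `[A]` of the sets `A ∈ 𝒜*`. -/
def TypeSemigroup : Type v := Quotient (starSetoid 𝒜)

variable {𝒜}

/-- The type `[A]`. -/
def typeOf (A : 𝒜.star) : TypeSemigroup 𝒜 := Quotient.mk _ A

theorem typeOf_eq {A B : 𝒜.star} : typeOf A = typeOf B ↔ Equidec 𝒜 A.1 B.1 := Quotient.eq

/-- `[A] + [B] = [A ∪ B']`, where `B'` is `B` shifted above the levels of `A`. -/
noncomputable instance : Add (TypeSemigroup 𝒜) where
  add := Quotient.map₂ (fun A B => ⟨add A.1 B.1, star_add A.2 B.2⟩) (by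
    intro A A' hA B B' hB
    exact add_equidec A.2 B.2 hA (hB.trans (Equidec.shift B'.2 _)) (disjoint_shift A'.2 _))

/-- The type of the empty set. -/
instance : Zero (TypeSemigroup 𝒜) where
  zero := typeOf ⟨∅, star_empty 𝒜⟩

theorem typeOf_add (A B : 𝒜.star) :
    typeOf A + typeOf B = typeOf ⟨add A.1 B.1, star_add A.2 B.2⟩ := rfl

/-- If `C` is the disjoint union of copies of `A` and `B` then `[A] + [B] = [C]`. -/
theorem typeOf_add_eq {A B C : 𝒜.star} {A' B' : Set (X × ℕ)} (h1 : Equidec 𝒜 A.1 A')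
    (h2 : Equidec 𝒜 B.1 B') (hd : Disjoint A' B') (hC : A' ∪ B' = C.1) :
    typeOf A + typeOf B = typeOf C := by
  rw [typeOf_add, typeOf_eq, ← hC]
  exact add_equidec A.2 B.2 h1 h2 hd

theorem typeOf_add_comm (α β : TypeSemigroup 𝒜) : α + β = β + α := by
  obtain ⟨A, rfl⟩ := Quotient.exists_rep α
  obtain ⟨B, rfl⟩ := Quotient.exists_rep β
  change typeOf A + typeOf B = typeOf B + typeOf A
  rw [typeOf_add B A]
  exact typeOf_add_eq (Equidec.shift A.2 (height B.1)) (Equidec.refl B.2)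
    (disjoint_shift B.2 A.1).symm (Set.union_comm _ _)

theorem typeOf_add_assoc (α β γ : TypeSemigroup 𝒜) : α + β + γ = α + (β + γ) := by
  obtain ⟨A, rfl⟩ := Quotient.exists_rep α
  obtain ⟨B, rfl⟩ := Quotient.exists_rep β
  obtain ⟨C, rfl⟩ := Quotient.exists_rep γ
  change typeOf A + typeOf B + typeOf C = typeOf A + (typeOf B + typeOf C)
  rw [typeOf_add A B, typeOf_add B C]
  have hd : Disjoint (A.1 ∪ shift (height A.1) B.1)
      (shift (height (add A.1 B.1)) C.1) := disjoint_shift (star_add A.2 B.2) C.1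
  have hd1 := hd.mono_left (Set.subset_union_right (s := A.1))
  have hd2 := hd.mono_left (Set.subset_union_left (t := shift (height A.1) B.1))
  symm
  refine typeOf_add_eq (A' := A.1) (B' := shift (height A.1) B.1 ∪
    shift (height (add A.1 B.1)) C.1) (Equidec.refl A.2) ?_ ?_ ?_
  · exact add_equidec B.2 C.2 (Equidec.shift B.2 _) (Equidec.shift C.2 _) hd1
  · exact (disjoint_shift A.2 B.1).union_right hd2
  · rw [← Set.union_assoc]
    rfl

theorem typeOf_zero_add (α : TypeSemigroup 𝒜) : 0 + α = α := by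
  obtain ⟨A, rfl⟩ := Quotient.exists_rep α
  exact typeOf_add_eq (A := ⟨∅, star_empty 𝒜⟩) (B := A) (C := A) (A' := ∅) (B' := A.1)
    (Equidec.refl (star_empty 𝒜)) (Equidec.refl A.2) (Set.empty_disjoint _) (Set.empty_union _)

noncomputable instance : AddCommMonoid (TypeSemigroup 𝒜) where
  add_assoc := typeOf_add_assoc
  zero_add := typeOf_zero_add
  add_zero α := by rw [typeOf_add_comm, typeOf_zero_add]
  add_comm := typeOf_add_comm
  nsmul := nsmulRec

end Pool.Agent.Y86.TypeSg
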