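import Mathlib
import Pool.Agent.Y86.TypeSg

/-!
# Failure of the cancellation law for Borel subsets of the circle

The group is the group of isometries of the circle `ℝ/ℤ` generated by the two reflections
`x ↦ -x` and `x ↦ ω - x` with `ω` irrational.
-/

set_option autoImplicit false

namespace Pool.Agent.Y86.CircleEx

open Pool.Agent.Y86.TypeSg MeasureTheory

/-- The circle. -/
abbrev T := AddCircle (1 : ℝ)

/-- The centre of the second reflection. -/
noncomputable def η : T := ((Real.sqrt 2 : ℝ) : T)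

/-- The irrational rotation angle. -/
noncomputable def ω : T := η + η

/-- The first reflection. -/
def r : Equiv.Perm T := Equiv.neg T

/-- The second reflection. -/
noncomputable def s : Equiv.Perm T := Equiv.subLeft ω

@[simp] theorem r_apply (x : T) : r x = -x := rfl
@[simp] theorem s_apply (x : T) : s x = ω - x := rfl

/-- The infinite dihedral group generated by the two reflections. -/
noncomputable def D : Subgroup (Equiv.Perm T) := Subgroup.closure {r, s}

theorem r_mem : r ∈ D := Subgroup.subset_closure (by simp)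
theorem s_mem : s ∈ D := Subgroup.subset_closure (by simp)

theorem r_inv : r⁻¹ = r := by
  rw [inv_eq_iff_mul_eq_one]
  ext x
  simp [Equiv.Perm.mul_apply]

theorem s_inv : s⁻¹ = s := by
  rw [inv_eq_iff_mul_eq_one]
  ext x
  simp [Equiv.Perm.mul_apply]

theorem meas_of_mem : ∀ g ∈ D, Measurable (g : T → T) ∧ Measurable ((g⁻¹ : Equiv.Perm T) : T → T) := by
  intro g hg
  have hr : Measurable (r : T → T) := measurable_neg
  have hs : Measurable (s : T → T) := measurable_const.sub measurable_id
  refine Subgroup.closure_induction (p := fun (g : Equiv.Perm T) _ => Measurable (g : T → T) ∧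
    Measurable ((g⁻¹ : Equiv.Perm T) : T → T)) ?_ ?_ ?_ ?_ hg
  · rintro x (rfl | hx)
    · exact ⟨hr, by rw [r_inv]; exact hr⟩
    · rw [Set.mem_singleton_iff] at hx
      subst hx
      exact ⟨hs, by rw [s_inv]; exact hs⟩
  · exact ⟨measurable_id, by rw [inv_one]; exact measurable_id⟩
  · intro x y _ _ hx hy
    refine ⟨hx.1.comp hy.1, ?_⟩
    rw [mul_inv_rev]
    exact hy.2.comp hx.2
  · intro x _ hx
    exact ⟨hx.2, by rw [inv_inv]; exact hx.1⟩

/-- The Borel subsets of the circle. -/
noncomputable def borelAlg : InvSubalg D T where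
  sets := {A | MeasurableSet A}
  empty_mem := by simp
  univ_mem := by simp
  union_mem A hA B hB := by
    rw [Set.mem_ofPred_eq] at *
    exact hA.union hB
  inter_mem A hA B hB := by
    rw [Set.mem_ofPred_eq] at *
    exact hA.inter hB
  compl_mem A hA := by
    rw [Set.mem_ofPred_eq] at *
    exact hA.compl
  image_mem g A hA := by
    rw [Set.mem_ofPred_eq] at *
    have h : (fun x : T => g • x) '' A = ((g.1⁻¹ : Equiv.Perm T) : T → T) ⁻¹' A := by
      ext x
      constructor
      · rintro ⟨y, hy, rfl⟩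
        change g.1⁻¹ (g.1 y) ∈ A
        simpa using hy
      · intro hx
        refine ⟨g.1⁻¹ x, hx, ?_⟩
        change g.1 (g.1⁻¹ x) = x
        simp
    rw [h]
    exact (meas_of_mem g.1 g.2).2 hA

/-! ### The transfer function -/

/-- The relation between `c`, its translate `c'` and the net flow `φ`. -/
def Flow (c c' φ : T → ℤ) : Prop :=
  (∀ x, φ (r (s x)) - φ x = c (s x) + c (r (s x)) - (c' (s x) + c' (r (s x)))) ∧
    ∀ x, φ (s x) = -φ x

theorem flow_of_mem (g : Equiv.Perm T) (hg : g ∈ D) : ∀ c : T → ℤ, Measurable c →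
    ∃ φ : T → ℤ, Measurable φ ∧ Flow c (fun x => c (g⁻¹ x)) φ := by
  have hs : Measurable (s : T → T) := measurable_const.sub measurable_id
  refine Subgroup.closure_induction (p := fun g _ => ∀ c : T → ℤ, Measurable c →
    ∃ φ : T → ℤ, Measurable φ ∧ Flow c (fun x => c (g⁻¹ x)) φ) ?_ ?_ ?_ ?_ hg
  · rintro x (rfl | hx) c hc
    · refine ⟨fun _ => 0, measurable_const, fun x => ?_, fun x => by simp⟩
      rw [r_inv]
      simp only [r_apply, neg_neg]
      ring
    · rw [Set.mem_singleton_iff] at hx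
      subst hx
      refine ⟨fun x => c x - c (s x), hc.sub (hc.comp hs), fun x => ?_, fun x => ?_⟩
      · rw [s_inv]
        simp only [s_apply, r_apply, sub_sub_cancel]
        ring
      · simp only [s_apply, sub_sub_cancel]
        ring
  · intro c _
    exact ⟨fun _ => 0, measurable_const, fun x => by simp, fun x => by simp⟩
  · intro g h hg hh ihg ihh c hc
    obtain ⟨φ, h1, h2, h3⟩ := ihh c hc
    obtain ⟨ψ, k1, k2, k3⟩ := ihg (fun x => c (h⁻¹ x)) (hc.comp (meas_of_mem h hh).2)
    refine ⟨fun x => φ x + ψ x, h1.add k1, fun x => ?_, fun x => ?_⟩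
    · have e1 := h2 x
      have e2 := k2 x
      simp only [mul_inv_rev, Equiv.Perm.mul_apply] at *
      linarith
    · have e1 := h3 x
      have e2 := k3 x
      simp only
      linarith
  · intro g hg ih c hc
    obtain ⟨φ, h1, h2, h3⟩ := ih (fun x => c (g x)) (hc.comp (meas_of_mem g hg).1)
    refine ⟨fun x => -φ x, h1.neg, fun x => ?_, fun x => ?_⟩
    · have e1 := h2 x
      have a1 : ∀ y, g (g⁻¹ y) = y := fun y => by simp
      simp only [a1] at e1
      simp only [inv_inv]
      linarith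
    · have e1 := h3 x
      simp only
      linarith

/-! ### Counting levels -/

/-- The number of the levels `m` with `(x, m) ∈ A`. -/
noncomputable def cnt (A : Set (T × ℕ)) (x : T) : ℤ := ({m | (x, m) ∈ A}.ncard : ℤ)

open Classical in
theorem cnt_eq_sum {A : Set (T × ℕ)} {n : ℕ} (hn : ∀ p ∈ A, p.2 < n) (x : T) :
    cnt A x = ∑ m ∈ Finset.range n, if (x, m) ∈ A then (1 : ℤ) else 0 := by
  unfold cnt
  have h : {m | (x, m) ∈ A} = ((Finset.range n).filter (fun m => (x, m) ∈ A) : Set ℕ) := by
    ext m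
    simp only [Set.mem_ofPred_eq, Finset.coe_filter, Finset.mem_range]
    exact ⟨fun h => ⟨hn _ h, h⟩, fun h => h.2⟩
  rw [h, Set.ncard_coe_finset, Finset.card_filter]
  push_cast
  rfl

theorem measurable_cnt {A : Set (T × ℕ)} (hA : A ∈ borelAlg.star) : Measurable (cnt A) := by
  classical
  have h : cnt A = fun x => ∑ m ∈ Finset.range (height A), if (x, m) ∈ A then (1 : ℤ) else 0 := by
    funext x
    exact cnt_eq_sum (lt_height hA) x
  rw [h]
  refine Finset.measurable_sum _ fun m _ => ?_
  refine Measurable.ite ?_ measurable_const measurable_const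
  rw [mem_star_iff] at hA
  exact hA.1 m

theorem cnt_act (h : D × Equiv.Perm ℕ) (P : Set (T × ℕ)) (x : T) :
    cnt (act h '' P) x = cnt P (h.1.1⁻¹ x) := by
  unfold cnt
  congr 1
  have : {m | (x, m) ∈ act h '' P} = h.2 '' {m | (h.1.1⁻¹ x, m) ∈ P} := by
    ext m
    rw [Set.mem_ofPred_eq, mem_act_image]
    constructor
    · intro hm
      refine ⟨h.2⁻¹ m, ?_, by simp⟩
      exact hm
    · rintro ⟨k, hk, rfl⟩
      change (h.1.1⁻¹ x, h.2⁻¹ (h.2 k)) ∈ P
      simpa using hk
  rw [this]
  exact Set.ncard_image_of_injective _ h.2.injective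

theorem cnt_iUnion {k : ℕ} {P : Fin k → Set (T × ℕ)} {A : Set (T × ℕ)} {n : ℕ}
    (hn : ∀ p ∈ A, p.2 < n) (hd : Pairwise (fun i j => Disjoint (P i) (P j)))
    (hA : ⋃ i, P i = A) (x : T) : cnt A x = ∑ i, cnt (P i) x := by
  classical
  have hP : ∀ i, ∀ p ∈ P i, p.2 < n := fun i p hp => hn p (hA ▸ Set.mem_iUnion.2 ⟨i, hp⟩)
  rw [cnt_eq_sum hn x, Finset.sum_congr rfl (fun i _ => cnt_eq_sum (hP i) x), Finset.sum_comm]
  refine Finset.sum_congr rfl fun m _ => ?_
  by_cases h : (x, m) ∈ A
  · rw [if_pos h]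
    rw [← hA] at h
    obtain ⟨i, hi⟩ := Set.mem_iUnion.1 h
    rw [Finset.sum_eq_single i, if_pos hi]
    · intro j _ hj
      rw [if_neg]
      intro hj'
      exact Set.disjoint_left.1 (hd hj) hj' hi
    · intro h
      exact (h (Finset.mem_univ _)).elim
  · rw [if_neg h]
    symm
    apply Finset.sum_eq_zero
    intro i _
    rw [if_neg]
    intro hi
    exact h (hA ▸ Set.mem_iUnion.2 ⟨i, hi⟩)

theorem flow_of_equidec {A B : Set (T × ℕ)} (hA : A ∈ borelAlg.star) (hB : B ∈ borelAlg.star)
    (h : Equidec borelAlg A B) : ∃ φ : T → ℤ, Measurable φ ∧ Flow (cnt A) (cnt B) φ := by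
  obtain ⟨k, P, h, h1, h2, h3, h4, h5⟩ := h
  have key : ∀ i, ∃ φ : T → ℤ, Measurable φ ∧ Flow (cnt (P i)) (cnt (act (h i) '' P i)) φ := by
    intro i
    obtain ⟨φ, hm, hφ⟩ := flow_of_mem (h i).1.1 (h i).1.2 (cnt (P i)) (measurable_cnt (h1 i))
    refine ⟨φ, hm, ?_⟩
    have e : cnt (act (h i) '' P i) = fun x => cnt (P i) ((h i).1.1⁻¹ x) := by
      funext x
      exact cnt_act _ _ _
    rw [e]
    exact hφ
  choose φ hm hf using key
  refine ⟨fun x => ∑ i, φ i x, Finset.measurable_sum _ fun i _ => hm i, fun x => ?_, fun x => ?_⟩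
  · rw [cnt_iUnion (lt_height hA) h2 h3, cnt_iUnion (lt_height hA) h2 h3,
      cnt_iUnion (lt_height hB) h4 h5, cnt_iUnion (lt_height hB) h4 h5]
    simp only [← Finset.sum_add_distrib, ← Finset.sum_sub_distrib]
    exact Finset.sum_congr rfl fun i _ => (hf i).1 x
  · simp only [← Finset.sum_neg_distrib]
    exact Finset.sum_congr rfl fun i _ => (hf i).2 x

end Pool.Agent.Y86.CircleEx
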