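import Mathlib
import Pool.Agent.Y86.CircleEx

set_option autoImplicit false

namespace Pool.Agent.Y86.CircleEx

open Pool.Agent.Y86.TypeSg MeasureTheory

/-! ### Arithmetic in the circle -/

/-- The point of order two. -/
noncomputable def hf : T := ((1 / 2 : ℝ) : T)

theorem hf_add_hf : hf + hf = 0 := by
  unfold hf
  rw [← AddCircle.coe_add]
  norm_num

theorem neg_hf : -hf = hf := by
  rw [neg_eq_iff_add_eq_zero]
  exact hf_add_hf

theorem nsmul_omega_ne (n : ℕ) (hn : n ≠ 0) : n • ω ≠ 0 := by
  intro h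
  unfold ω η at h
  rw [← AddCircle.coe_add, ← AddCircle.coe_nsmul, AddCircle.coe_eq_zero_iff] at h
  obtain ⟨k, hk⟩ := h
  have h2 : Irrational (Real.sqrt 2) := irrational_sqrt_two
  apply h2
  refine ⟨(k : ℚ) / (2 * n), ?_⟩
  have hn' : (n : ℝ) ≠ 0 := Nat.cast_ne_zero.2 hn
  simp only [zsmul_eq_mul, mul_one, nsmul_eq_mul] at hk
  push_cast
  field_simp
  linarith

theorem addOrderOf_omega : addOrderOf ω = 0 := by
  rw [addOrderOf_eq_zero_iff']
  intro n hn
  exact nsmul_omega_ne n hn.ne'

/-- The open upper half of the circle. -/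
def U : Set T := (fun t : ℝ => (t : T)) '' Set.Ioo 0 (1 / 2)

theorem isOpen_U : IsOpen U := QuotientAddGroup.isOpenMap_coe _ isOpen_Ioo

theorem U_cover (x : T) : x ∈ U ∨ -x ∈ U ∨ x = 0 ∨ x = hf := by
  have h : x ∈ ((↑) : ℝ → T) '' Set.Ico (-(1/2)) (-(1/2) + 1) := by
    rw [AddCircle.coe_image_Ico_eq]
    exact Set.mem_univ _
  obtain ⟨t, ht, rfl⟩ := h
  rcases lt_trichotomy t 0 with h | h | h
  · rcases eq_or_lt_of_le ht.1 with h' | h'
    · right; right; right
      rw [← h', AddCircle.coe_neg]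
      exact neg_hf
    · right; left
      refine ⟨-t, ⟨by linarith, by linarith⟩, ?_⟩
      simp only [AddCircle.coe_neg]
  · right; right; left
    rw [h]
    exact AddCircle.coe_zero ..
  · left
    exact ⟨t, ⟨h, by linarith [ht.2]⟩, rfl⟩

theorem coe_inj_aux {t u : ℝ} (ht : t ∈ Set.Ico (-(1/2) : ℝ) (-(1/2) + 1))
    (hu : u ∈ Set.Ico (-(1/2) : ℝ) (-(1/2) + 1)) (h : (t : T) = (u : T)) : t = u :=
  (AddCircle.coe_eq_coe_iff_of_mem_Ico ht hu).1 h

theorem U_neg {x : T} (hx : x ∈ U) : -x ∉ U := by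
  rintro ⟨u, hu, h⟩
  obtain ⟨t, ht, rfl⟩ := hx
  have h1 : ((u : ℝ) : T) = ((-t : ℝ) : T) := by
    rw [AddCircle.coe_neg]
    exact h
  have := coe_inj_aux ⟨by linarith [hu.1], by linarith [hu.2]⟩
    ⟨by linarith [ht.2], by linarith [ht.1]⟩ h1
  linarith [hu.1, ht.1]

theorem zero_notMem_U : (0 : T) ∉ U := by
  rintro ⟨u, hu, h⟩
  have h1 : ((u : ℝ) : T) = ((0 : ℝ) : T) := by
    simpa using h
  have := coe_inj_aux ⟨by linarith [hu.1], by linarith [hu.2]⟩
    ⟨by norm_num, by norm_num⟩ h1
  linarith [hu.1]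

theorem hf_notMem_U : hf ∉ U := by
  intro h
  have h2 := U_neg h
  rw [neg_hf] at h2
  exact h2 h

/-- The half circle centred at `q`. -/
def Uq (q : T) : Set T := {x | x - q ∈ U}

theorem meas_Uq (q : T) : MeasurableSet (Uq q) := by
  have h : Measurable (fun x : T => x - q) := measurable_id.sub measurable_const
  exact h isOpen_U.measurableSet

/-- The indicator function of the half circle. -/
noncomputable def ind (q : T) (x : T) : ℤ := (Uq q).indicator 1 x

theorem ind_add (q x : T) (h1 : x ≠ q) (h2 : x ≠ q + hf) : ind q x + ind q (2 • q - x) = 1 := by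
  unfold ind Uq
  have e : 2 • q - x - q = -(x - q) := by
    rw [two_nsmul]
    abel
  rcases U_cover (x - q) with h | h | h | h
  · have h' := U_neg h
    rw [← e] at h'
    rw [Set.indicator_of_mem (by exact h), Set.indicator_of_notMem (by exact h')]
    rfl
  · have h' := U_neg h
    rw [neg_neg] at h'
    rw [← e] at h
    rw [Set.indicator_of_notMem (by exact h'), Set.indicator_of_mem (by exact h)]
    rfl
  · exact (h1 (sub_eq_zero.1 h)).elim
  · exact (h2 (by rw [← h]; abel)).elim

/-! ### The contradiction -/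

/-- The set `Y × {0}`. -/
def emb (Y : Set T) : Set (T × ℕ) := {p | p.2 = 0 ∧ p.1 ∈ Y}

theorem emb_mem {Y : Set T} (hY : MeasurableSet Y) : emb Y ∈ borelAlg.star := by
  rw [mem_star_iff]
  refine ⟨fun m => ?_, 1, fun p hp => by rw [hp.1]; exact one_pos⟩
  by_cases hm : m = 0
  · have : {x | (x, m) ∈ emb Y} = Y := by
      ext x
      simp [emb, hm]
    rw [this]
    exact hY
  · have : {x | (x, m) ∈ emb Y} = ∅ := by
      ext x
      simp [emb, hm]
    rw [this]
    exact borelAlg.empty_mem

theorem cnt_emb (q x : T) : cnt (emb (Uq q)) x = ind q x := by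
  classical
  rw [cnt_eq_sum (n := 1) (fun p hp => by rw [hp.1]; exact one_pos)]
  simp only [Finset.range_one, Finset.sum_singleton]
  unfold ind
  by_cases h : x ∈ Uq q
  · rw [if_pos ⟨rfl, h⟩, Set.indicator_of_mem h]
    rfl
  · rw [if_neg (fun h' => h h'.2), Set.indicator_of_notMem h]

theorem ae_ne (a : T) : ∀ᵐ x : T, x ≠ a := by
  have h : (volume : Measure T) {a} = 0 := by
    rw [← Metric.closedBall_zero, AddCircle.volume_closedBall]
    norm_num
  exact measure_eq_zero_iff_ae_notMem.1 h

theorem not_equidec : ¬ Equidec borelAlg (emb (Uq 0)) (emb (Uq η)) := by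
  intro h
  obtain ⟨φ, hm, f1, f2⟩ := flow_of_equidec (emb_mem (meas_Uq 0)) (emb_mem (meas_Uq η)) h
  simp only [cnt_emb] at f1
  have hω : 2 • η = ω := two_nsmul η
  -- the function which is invariant under the rotation
  set F : T → ℤ := fun x => φ x + ind η x with hF
  have hFm : Measurable F := by
    refine hm.add ?_
    exact measurable_one.indicator (meas_Uq η)
  have g1 : ∀ᵐ x : T, F (r (s x)) = F x := by
    filter_upwards [ae_ne η, ae_ne (η + hf), ae_ne ω, ae_ne (ω - hf)] with x h1 h2 h3 h4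
    have e1 := f1 x
    have e2 := ind_add η x h1 h2
    rw [hω] at e2
    have e3 := ind_add 0 (s x) (by
      rw [s_apply]
      intro h
      exact h3 (sub_eq_zero.1 h).symm) (by
      rw [s_apply]
      intro h
      apply h4
      rw [zero_add] at h
      rw [← h]
      abel)
    have e4 : 2 • (0 : T) - s x = r (s x) := by simp
    rw [e4] at e3
    simp only [hF]
    simp only [s_apply] at *
    linarith
  have g2 : ∀ᵐ x : T, F (s x) = 1 - F x := by
    filter_upwards [ae_ne η, ae_ne (η + hf)] with x h1 h2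
    have e1 := f2 x
    have e2 := ind_add η x h1 h2
    rw [hω] at e2
    simp only [hF]
    simp only [s_apply] at *
    linarith
  have herg : Ergodic (-ω + · : T → T) volume := by
    rw [AddCircle.ergodic_add_left, addOrderOf_neg]
    exact addOrderOf_omega
  have hconst : ∃ c : ℤ, F =ᵐ[volume] Function.const T c := by
    refine herg.ae_eq_const_of_ae_eq_comp₀ hFm.nullMeasurable ?_
    filter_upwards [g1] with x hx
    rw [← hx]
    simp only [Function.comp, r_apply, s_apply]
    congr 1
    abel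
  obtain ⟨c, hc⟩ := hconst
  have hsq : MeasurePreserving (s : T → T) volume volume := Measure.measurePreserving_sub_left volume ω
  have hc2 := hsq.quasiMeasurePreserving.ae_eq_comp hc
  have hex : ∃ x : T, F x = c ∧ F (s x) = c ∧ F (s x) = 1 - F x := by
    have h := (hc.and (hc2.and g2))
    obtain ⟨x, h1, h2, h3⟩ := h.exists
    exact ⟨x, h1, h2, h3⟩
  obtain ⟨x, h1, h2, h3⟩ := hex
  omega

end Pool.Agent.Y86.CircleEx
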