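import Mathlib
import Pool.Agent.Y86.CircleEx2

set_option autoImplicit false

namespace Pool.Agent.Y86.CircleEx

open Pool.Agent.Y86.TypeSg MeasureTheory

/-- The type of the Borel set `Y ⊆ T`. -/
noncomputable def tp (Y : Set T) (hY : MeasurableSet Y) : TypeSemigroup borelAlg :=
  typeOf ⟨emb Y, emb_mem hY⟩

theorem tp_congr {Y Z : Set T} (h : Y = Z) (hY : MeasurableSet Y) (hZ : MeasurableSet Z) :
    tp Y hY = tp Z hZ := by
  subst h
  rfl

theorem tp_add {Y Z : Set T} (hY : MeasurableSet Y) (hZ : MeasurableSet Z) (hd : Disjoint Y Z) :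
    tp Y hY + tp Z hZ = tp (Y ∪ Z) (hY.union hZ) := by
  refine typeOf_add_eq (A' := emb Y) (B' := emb Z) (Equidec.refl (emb_mem hY))
    (Equidec.refl (emb_mem hZ)) ?_ ?_
  · rw [Set.disjoint_left]
    rintro p ⟨-, h1⟩ ⟨-, h2⟩
    exact Set.disjoint_left.1 hd h1 h2
  · ext p
    simp only [emb, Set.mem_union, Set.mem_ofPred_eq]
    tauto

theorem tp_act (g : Equiv.Perm T) (hg : g ∈ D) {Y Z : Set T} (hY : MeasurableSet Y)
    (hZ : MeasurableSet Z) (h : g '' Y = Z) : tp Y hY = tp Z hZ := by
  subst h
  refine typeOf_eq.2 ?_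
  have e : act ((⟨g, hg⟩ : D), (1 : Equiv.Perm ℕ)) '' emb Y = emb (g '' Y) := by
    ext ⟨x, m⟩
    constructor
    · rintro ⟨⟨y, k⟩, ⟨h1, h2⟩, h3⟩
      rw [← h3]
      exact ⟨h1, y, h2, rfl⟩
    · rintro ⟨h1, y, h2, h3⟩
      refine ⟨(y, m), ⟨h1, h2⟩, ?_⟩
      ext
      · exact h3
      · rfl
  have := Equidec.act (emb_mem hY) ((⟨g, hg⟩ : D), (1 : Equiv.Perm ℕ))
  rw [e] at this
  exact this

/-- The set of the points `q + n ω` and `q + 1/2 + n ω`. -/
def Cq (q : T) : Set T := {x | ∃ n : ℕ, x = q + n • ω ∨ x = q + hf + n • ω}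

theorem meas_Cq (q : T) : MeasurableSet (Cq q) := by
  apply Set.Countable.measurableSet
  have : Cq q = ⋃ n : ℕ, {q + n • ω, q + hf + n • ω} := by
    ext x
    simp [Cq]
  rw [this]
  exact Set.countable_iUnion fun n => (Set.toFinite _).countable

theorem omega_ne (n : ℕ) : (n + 1) • ω ≠ 0 ∧ (n + 1) • ω ≠ hf := by
  refine ⟨nsmul_omega_ne _ (Nat.succ_ne_zero n), fun h => ?_⟩
  apply nsmul_omega_ne (2 * (n + 1)) (by omega)
  rw [two_mul, add_nsmul, h]
  exact hf_add_hf

/-- Two points are absorbed. -/
theorem hotel (q : T) (h1 : MeasurableSet ({q, q + hf}ᶜ : Set T)) :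
    tp Set.univ MeasurableSet.univ = tp ({q, q + hf}ᶜ) h1 := by
  have ht : s * r ∈ D := D.mul_mem s_mem r_mem
  have e1 : (Cq q) ∪ (Cq q)ᶜ = Set.univ := Set.union_compl_self _
  have hm : MeasurableSet ((s * r) '' Cq q) := by
    apply Set.Countable.measurableSet
    apply Set.Countable.image
    have : Cq q = ⋃ n : ℕ, {q + n • ω, q + hf + n • ω} := by
      ext x
      simp [Cq]
    rw [this]
    exact Set.countable_iUnion fun n => (Set.toFinite _).countable
  have hsr : ∀ x, (s * r) x = x + ω := by
    intro x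
    simp [Equiv.Perm.mul_apply]
    abel
  have key : ∀ x, x ∈ (s * r) '' Cq q ↔ x ∈ Cq q ∧ x ≠ q ∧ x ≠ q + hf := by
    intro x
    constructor
    · rintro ⟨y, ⟨n, hy⟩, rfl⟩
      rw [hsr]
      rcases hy with rfl | rfl
      · refine ⟨⟨n + 1, Or.inl ?_⟩, ?_, ?_⟩
        · rw [add_nsmul, one_nsmul]
          abel
        · intro h
          apply (omega_ne n).1
          rw [add_nsmul, one_nsmul]
          rw [add_assoc] at h
          simpa using h
        · intro h
          apply (omega_ne n).2
          rw [add_nsmul, one_nsmul]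
          rw [add_assoc] at h
          exact add_left_cancel h
      · refine ⟨⟨n + 1, Or.inr ?_⟩, ?_, ?_⟩
        · rw [add_nsmul, one_nsmul]
          abel
        · intro h
          apply (omega_ne n).2
          rw [add_nsmul, one_nsmul]
          have h' : hf + (n • ω + ω) = 0 := by
            have : q + (hf + (n • ω + ω)) = q := by
              calc q + (hf + (n • ω + ω)) = q + hf + n • ω + ω := by abel
                _ = q := h
            simpa using this
          rw [← neg_hf]
          exact (neg_eq_of_add_eq_zero_right h').symm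
        · intro h
          apply (omega_ne n).1
          rw [add_nsmul, one_nsmul]
          rw [add_assoc] at h
          simpa using h
    · rintro ⟨⟨n, hn⟩, h2, h3⟩
      cases n with
      | zero =>
        rcases hn with hn | hn
        · exact (h2 (by simpa using hn)).elim
        · exact (h3 (by simpa using hn)).elim
      | succ n =>
        rcases hn with rfl | rfl
        · refine ⟨q + n • ω, ⟨n, Or.inl rfl⟩, ?_⟩
          rw [hsr, add_nsmul, one_nsmul]
          abel
        · refine ⟨q + hf + n • ω, ⟨n, Or.inr rfl⟩, ?_⟩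
          rw [hsr, add_nsmul, one_nsmul]
          abel
  have hqC : q ∈ Cq q := ⟨0, Or.inl (by simp)⟩
  have hqC' : q + hf ∈ Cq q := ⟨0, Or.inr (by simp)⟩
  have e2 : (s * r) '' Cq q ∪ (Cq q)ᶜ = {q, q + hf}ᶜ := by
    ext x
    rw [Set.mem_union, key, Set.mem_compl_iff, Set.mem_compl_iff, Set.mem_insert_iff,
      Set.mem_singleton_iff]
    constructor
    · rintro (⟨-, a, b⟩ | h) (rfl | rfl)
      · exact a rfl
      · exact b rfl
      · exact h hqC
      · exact h hqC'
    · intro h
      push Not at h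
      by_cases hx : x ∈ Cq q
      · exact Or.inl ⟨hx, h.1, h.2⟩
      · exact Or.inr hx
  rw [← tp_congr e1 ((meas_Cq q).union (meas_Cq q).compl) MeasurableSet.univ,
    ← tp_add (meas_Cq q) (meas_Cq q).compl disjoint_compl_right,
    ← tp_congr e2 (hm.union (meas_Cq q).compl) h1,
    ← tp_add hm (meas_Cq q).compl, tp_act (s * r) ht (meas_Cq q) hm rfl]
  rw [Set.disjoint_left]
  intro x hx hx'
  exact hx' ((key x).1 hx).1

theorem two_half (q : T) (g : Equiv.Perm T) (hg : g ∈ D) (hgq : ∀ x, g x = 2 • q - x) :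
    2 • tp (Uq q) (meas_Uq q) = tp Set.univ MeasurableSet.univ := by
  have hm : MeasurableSet (g '' Uq q) := borelAlg.image_mem ⟨g, hg⟩ _ (meas_Uq q)
  have key : ∀ x, x ∈ g '' Uq q ↔ 2 • q - x ∈ Uq q := by
    intro x
    constructor
    · rintro ⟨y, hy, rfl⟩
      rw [hgq]
      simpa using hy
    · intro hx
      refine ⟨_, hx, ?_⟩
      rw [hgq]
      abel
  have e : ∀ x, 2 • q - x - q = -(x - q) := by
    intro x
    rw [two_nsmul]
    abel
  have hd : Disjoint (Uq q) (g '' Uq q) := by
    rw [Set.disjoint_left]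
    intro x hx hx'
    rw [key] at hx'
    have h1 : 2 • q - x - q ∈ U := hx'
    rw [e] at h1
    exact U_neg (show x - q ∈ U from hx) h1
  have h1 : MeasurableSet ({q, q + hf}ᶜ : Set T) := (Set.toFinite _).measurableSet.compl
  have hu : Uq q ∪ g '' Uq q = {q, q + hf}ᶜ := by
    ext x
    rw [Set.mem_union, key, Set.mem_compl_iff, Set.mem_insert_iff, Set.mem_singleton_iff]
    constructor
    · rintro (h | h) (rfl | rfl)
      · have h : x - x ∈ U := h
        rw [sub_self] at h
        exact zero_notMem_U h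
      · have h : q + hf - q ∈ U := h
        rw [add_sub_cancel_left] at h
        exact hf_notMem_U h
      · have h : 2 • x - x - x ∈ U := h
        rw [e, sub_self, neg_zero] at h
        exact zero_notMem_U h
      · have h : 2 • q - (q + hf) - q ∈ U := h
        rw [e, add_sub_cancel_left, neg_hf] at h
        exact hf_notMem_U h
    · intro h
      push Not at h
      rcases U_cover (x - q) with h' | h' | h' | h'
      · exact Or.inl h'
      · right
        change 2 • q - x - q ∈ U
        rw [e]
        exact h'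
      · exact (h.1 (sub_eq_zero.1 h')).elim
      · exact (h.2 (by rw [← h']; abel)).elim
  rw [two_nsmul]
  conv_lhs =>
    rw [tp_act g hg (meas_Uq q) hm rfl]
    rw [← tp_act g hg (meas_Uq q) hm rfl]
  have e3 : tp (Uq q) (meas_Uq q) + tp (Uq q) (meas_Uq q) =
      tp (Uq q) (meas_Uq q) + tp (g '' Uq q) hm := by
    rw [← tp_act g hg (meas_Uq q) hm rfl]
  rw [e3, tp_add _ _ hd, hotel q h1]
  exact tp_congr hu _ _

theorem not_cancel : ∃ α β : TypeSemigroup borelAlg, 2 • α = 2 • β ∧ α ≠ β := by
  refine ⟨tp (Uq 0) (meas_Uq 0), tp (Uq η) (meas_Uq η), ?_, ?_⟩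
  · rw [two_half 0 r r_mem (fun x => by simp), two_half η s s_mem (fun x => by
      rw [s_apply, two_nsmul]; rfl)]
  · intro h
    exact not_equidec (typeOf_eq.1 h)

open Cardinal in
theorem proper : borelAlg.sets ≠ Set.univ := by
  intro h
  have hall : ∀ A : Set T, MeasurableSet A := by
    intro A
    have : A ∈ borelAlg.sets := by
      rw [h]
      exact Set.mem_univ _
    exact this
  have hT : #T = 𝔠 := by
    rw [Cardinal.mk_congr (AddCircle.equivIco (1 : ℝ) 0)]
    exact Cardinal.mk_Ico_real (by norm_num)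
  obtain ⟨b, hb, -, hb2⟩ := TopologicalSpace.exists_countable_basis T
  have hgen : (borel T) = MeasurableSpace.generateFrom b := hb2.borel_eq_generateFrom
  have hms : (inferInstance : MeasurableSpace T) = MeasurableSpace.generateFrom b := by
    rw [← hgen]
    exact BorelSpace.measurable_eq
  have hcard : #{t : Set T | MeasurableSet[MeasurableSpace.generateFrom b] t} ≤ 𝔠 := by
    apply MeasurableSpace.cardinal_measurableSet_le_continuum
    exact (Cardinal.le_aleph0_iff_set_countable.2 hb).trans Cardinal.aleph0_le_continuum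
  have hset : {t : Set T | MeasurableSet[MeasurableSpace.generateFrom b] t} = Set.univ := by
    ext t
    simp only [Set.mem_ofPred_eq, Set.mem_univ, iff_true]
    rw [← hms]
    exact hall t
  rw [hset, Cardinal.mk_univ, Cardinal.mk_set, hT] at hcard
  exact absurd hcard (not_le.2 (Cardinal.cantor _))

end Pool.Agent.Y86.CircleEx
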